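import Mathlib

/-!
# MP_cee892_nt : proper pairs

For EVERY integer `Q` (not `-1, 0, 1`, not a square, not a cube) there are infinitely many sixth
power-free `a` such that all curves `y² = x³ + a Qⁱ`, `i ≥ 0`, have positive rank.

The proof is explicit.  Let
`H(s) = (94500 s² - 126917 s + 94500)² - 5145³ s²`
(a palindromic quartic) and let `s = -1000 Q w⁶` with `w` even.  Then the six Mordell curves
`y² = x³ + γ_r s^r H(s)` (`r = 0, ..., 5`, `γ_r = 1` for `r` even and `γ_r = -1000` for `r` odd) have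
explicit points which are rational functions of `s` (theorem `sections`); for `r = 3` this is a point
of degree `8` over `ℚ(s)` found by a computer search.  The curve `y² = x³ + γ_r s^r H(s)` is
isomorphic to `y² = x³ + a Q^r` where `a` is the sixth power-free part of `H(s)`.  A `2`-adic argument
(`rank_pos_of_val`) shows that all these points have infinite order.  Finally
a prime divisor argument (`exists_prime_once`) shows that infinitely many `a` occur.
-/

open WeierstrassCurve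

namespace Pool.Agent.Results.MP_cee892_nt.ProperPairs

/-- The curve `y² = x³ + k` over the rationals. -/
def mordell (k : ℚ) : WeierstrassCurve ℚ := ⟨0, 0, 0, 0, k⟩

lemma nonsing {k x y : ℚ} (h : y ^ 2 = x ^ 3 + k) (hx : x ≠ 0) :
    (mordell k).toAffine.Nonsingular x y := by
  rw [WeierstrassCurve.Affine.nonsingular_iff, WeierstrassCurve.Affine.equation_iff]
  simp only [mordell]
  refine ⟨by linarith, ?_⟩
  by_cases hy : y = 0
  · left
    have : x ^ 2 ≠ 0 := pow_ne_zero 2 hx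
    intro h'
    apply this
    linarith
  · right
    intro h'
    apply hy
    linarith

/-- The `2`-adic criterion for infinite order of a point with abscissa `x` on `y² = x³ + k`. -/
def Good (k x : ℚ) : Prop :=
  x ≠ 0 ∧ (3 * padicValRat 2 x < padicValRat 2 k ∨ padicValRat 2 k + 3 < 3 * padicValRat 2 x)

lemma val_add_of_lt {a b : ℚ} (ha : a ≠ 0) (hb : b ≠ 0)
    (h : padicValRat 2 a < padicValRat 2 b) :
    a + b ≠ 0 ∧ padicValRat 2 (a + b) = padicValRat 2 a := by
  have hne : a + b ≠ 0 := by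
    intro h0
    have : b = -a := by linarith
    rw [this, padicValRat.neg] at h
    exact lt_irrefl _ h
  exact ⟨hne, padicValRat.add_eq_of_lt hne ha hb h⟩

lemma val_eight_mul {k : ℚ} (hk : k ≠ 0) : padicValRat 2 (-8 * k) = 3 + padicValRat 2 k := by
  have h8 : (-8 : ℚ) = -((2 : ℚ) ^ 3) := by norm_num
  rw [padicValRat.mul (by norm_num) hk, h8, padicValRat.neg, padicValRat.pow]
  have : padicValRat 2 (2 : ℚ) = 1 := by
    have := padicValRat.self (p := 2) (by norm_num)
    simpa using this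
  rw [this]
  norm_num

lemma val_four : padicValRat 2 (4 : ℚ) = 2 := by
  have h4 : (4 : ℚ) = ((2 : ℚ) ^ 2) := by norm_num
  have : padicValRat 2 (2 : ℚ) = 1 := by
    have := padicValRat.self (p := 2) (by norm_num)
    simpa using this
  rw [h4, padicValRat.pow, this]
  norm_num

lemma double_step {k x y : ℚ} (hk : k ≠ 0) (h : y ^ 2 = x ^ 3 + k) (hg : Good k x) :
    y ≠ 0 ∧ Good k (x * (x ^ 3 - 8 * k) / (4 * (x ^ 3 + k))) ∧
    ((3 * padicValRat 2 x < padicValRat 2 k →
      padicValRat 2 (x * (x ^ 3 - 8 * k) / (4 * (x ^ 3 + k))) = padicValRat 2 x - 2) ∧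
     (padicValRat 2 k + 3 < 3 * padicValRat 2 x →
      padicValRat 2 (x * (x ^ 3 - 8 * k) / (4 * (x ^ 3 + k))) = padicValRat 2 x + 1)) := by
  obtain ⟨hx, hv⟩ := hg
  have hx3 : x ^ 3 ≠ 0 := pow_ne_zero 3 hx
  have hvx3 : padicValRat 2 (x ^ 3) = 3 * padicValRat 2 x := by
    rw [padicValRat.pow]; norm_num
  have h8k : (-8 * k) ≠ 0 := mul_ne_zero (by norm_num) hk
  have hv8 := val_eight_mul hk
  have e1 : x ^ 3 - 8 * k = x ^ 3 + (-8 * k) := by ring
  rcases hv with hv | hv
  · obtain ⟨n1, v1⟩ := val_add_of_lt hx3 hk (by rw [hvx3]; exact hv)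
    obtain ⟨n2, v2⟩ := val_add_of_lt hx3 h8k (by rw [hvx3, hv8]; linarith)
    have hy : y ≠ 0 := by
      rintro rfl
      apply n1
      rw [← h]; norm_num
    have hval : padicValRat 2 (x * (x ^ 3 - 8 * k) / (4 * (x ^ 3 + k))) =
        padicValRat 2 x - 2 := by
      rw [e1, padicValRat.div (mul_ne_zero hx n2) (mul_ne_zero (by norm_num) n1),
        padicValRat.mul hx n2, padicValRat.mul (by norm_num) n1, v1, v2, val_four]
      ring
    refine ⟨hy, ⟨?_, Or.inl ?_⟩, fun _ => hval, fun h' => ?_⟩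
    · rw [e1]
      exact div_ne_zero (mul_ne_zero hx n2) (mul_ne_zero (by norm_num) n1)
    · rw [hval]; linarith
    · exfalso; linarith
  · obtain ⟨n1, v1⟩ := val_add_of_lt hk hx3 (by rw [hvx3]; linarith)
    obtain ⟨n2, v2⟩ := val_add_of_lt h8k hx3 (by rw [hvx3, hv8]; linarith)
    rw [add_comm] at n1 v1 n2 v2
    have hy : y ≠ 0 := by
      rintro rfl
      apply n1
      rw [← h]; norm_num
    have hval : padicValRat 2 (x * (x ^ 3 - 8 * k) / (4 * (x ^ 3 + k))) =
        padicValRat 2 x + 1 := by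
      rw [e1, padicValRat.div (mul_ne_zero hx n2) (mul_ne_zero (by norm_num) n1),
        padicValRat.mul hx n2, padicValRat.mul (by norm_num) n1, v1, v2, val_four, hv8]
      ring
    refine ⟨hy, ⟨?_, Or.inr ?_⟩, fun h' => ?_, fun _ => hval⟩
    · rw [e1]
      exact div_ne_zero (mul_ne_zero hx n2) (mul_ne_zero (by norm_num) n1)
    · rw [hval]; linarith
    · exfalso; linarith

/-- Doubling of a point. -/
lemma double_point {k x y : ℚ} (h : y ^ 2 = x ^ 3 + k) (hx : x ≠ 0) (hy : y ≠ 0) :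
    ∃ (x' y' : ℚ) (h' : (mordell k).toAffine.Nonsingular x' y'),
      x' = x * (x ^ 3 - 8 * k) / (4 * (x ^ 3 + k)) ∧
      WeierstrassCurve.Affine.Point.some x y (nonsing h hx) +
        WeierstrassCurve.Affine.Point.some x y (nonsing h hx) =
        WeierstrassCurve.Affine.Point.some x' y' h' := by
  have hne : y ≠ (mordell k).toAffine.negY x y := by
    simp only [WeierstrassCurve.Affine.negY, mordell]
    intro h0
    apply hy
    linarith
  refine ⟨_, _, _, ?_, WeierstrassCurve.Affine.Point.add_self_of_Y_ne hne⟩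
  rw [WeierstrassCurve.Affine.slope_of_Y_ne rfl hne]
  simp only [WeierstrassCurve.Affine.addX, WeierstrassCurve.Affine.negY, mordell]
  rw [← h]
  have hk : k = y ^ 2 - x ^ 3 := by linarith
  rw [hk]
  have h2y : y - (-y - 0 * x - 0) = 2 * y := by ring
  rw [h2y]
  field_simp
  ring

lemma equation_of_nonsing {k x y : ℚ} (h : (mordell k).toAffine.Nonsingular x y) :
    y ^ 2 = x ^ 3 + k := by
  have := (WeierstrassCurve.Affine.equation_iff _ _).mp h.1
  simp only [mordell] at this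
  linarith

/-- all `2^n P` are affine points satisfying the criterion, with strictly monotone valuation -/
lemma iterate_A {k x y : ℚ} (hk : k ≠ 0) (h : y ^ 2 = x ^ 3 + k) (hx : x ≠ 0)
    (hv : 3 * padicValRat 2 x < padicValRat 2 k) (n : ℕ) :
    ∃ (x' y' : ℚ) (h' : (mordell k).toAffine.Nonsingular x' y'),
      x' ≠ 0 ∧ 3 * padicValRat 2 x' < padicValRat 2 k ∧
      padicValRat 2 x' = padicValRat 2 x - 2 * n ∧
      (2 ^ n : ℕ) • WeierstrassCurve.Affine.Point.some x y (nonsing h hx) =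
        WeierstrassCurve.Affine.Point.some x' y' h' := by
  induction n with
  | zero => exact ⟨x, y, nonsing h hx, hx, hv, by simp, by simp⟩
  | succ n ih =>
    obtain ⟨x', y', h', hx', hv', hval, heq⟩ := ih
    have heqn := equation_of_nonsing h'
    obtain ⟨hy', ⟨hgx, _⟩, hd1, _⟩ := double_step hk heqn ⟨hx', Or.inl hv'⟩
    obtain ⟨x'', y'', h'', hxx, hadd⟩ := double_point heqn hx' hy'
    have hd := hd1 hv'
    refine ⟨x'', y'', h'', ?_, ?_, ?_, ?_⟩
    · rw [hxx]; exact hgx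
    · rw [hxx, hd]; linarith
    · rw [hxx, hd, hval]; push_cast; ring
    · rw [pow_succ, mul_comm, mul_smul, heq, two_smul]
      exact hadd

lemma iterate_B {k x y : ℚ} (hk : k ≠ 0) (h : y ^ 2 = x ^ 3 + k) (hx : x ≠ 0)
    (hv : padicValRat 2 k + 3 < 3 * padicValRat 2 x) (n : ℕ) :
    ∃ (x' y' : ℚ) (h' : (mordell k).toAffine.Nonsingular x' y'),
      x' ≠ 0 ∧ padicValRat 2 k + 3 < 3 * padicValRat 2 x' ∧
      padicValRat 2 x' = padicValRat 2 x + n ∧
      (2 ^ n : ℕ) • WeierstrassCurve.Affine.Point.some x y (nonsing h hx) =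
        WeierstrassCurve.Affine.Point.some x' y' h' := by
  induction n with
  | zero => exact ⟨x, y, nonsing h hx, hx, hv, by simp, by simp⟩
  | succ n ih =>
    obtain ⟨x', y', h', hx', hv', hval, heq⟩ := ih
    have heqn := equation_of_nonsing h'
    obtain ⟨hy', ⟨hgx, _⟩, _, hd1⟩ := double_step hk heqn ⟨hx', Or.inr hv'⟩
    obtain ⟨x'', y'', h'', hxx, hadd⟩ := double_point heqn hx' hy'
    have hd := hd1 hv'
    refine ⟨x'', y'', h'', ?_, ?_, ?_, ?_⟩
    · rw [hxx]; exact hgx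
    · rw [hxx, hd]; linarith
    · rw [hxx, hd, hval]; push_cast; ring
    · rw [pow_succ, mul_comm, mul_smul, heq, two_smul]
      exact hadd

lemma rank_pos_of_inj {k : ℚ} (P : (mordell k).toAffine.Point)
    (hinj : Function.Injective fun n : ℕ => (2 ^ n : ℕ) • P) :
    0 < Module.rank ℤ (mordell k).toAffine.Point := by
  rw [pos_iff_ne_zero]
  intro h0
  obtain ⟨a, ha, haP⟩ := rank_eq_zero_iff.mp h0 P
  have hfin : IsOfFinAddOrder P := by
    rw [isOfFinAddOrder_iff_zsmul_eq_zero]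
    exact ⟨a, ha, haP⟩
  have hF : (AddSubmonoid.multiples P : Set (mordell k).toAffine.Point).Finite :=
    finite_multiples.mpr hfin
  have : Set.Infinite (Set.range fun n : ℕ => (2 ^ n : ℕ) • P) := Set.infinite_range_of_injective hinj
  apply this
  apply hF.subset
  rintro _ ⟨n, rfl⟩
  exact ⟨2 ^ n, rfl⟩

theorem rank_pos_of_val {k x y : ℚ} (hk : k ≠ 0) (h : y ^ 2 = x ^ 3 + k) (hg : Good k x) :
    0 < Module.rank ℤ (mordell k).toAffine.Point := by
  obtain ⟨hx, hv | hv⟩ := hg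
  · apply rank_pos_of_inj (WeierstrassCurve.Affine.Point.some x y (nonsing h hx))
    intro n m hnm
    obtain ⟨x1, y1, h1, _, _, v1, e1⟩ := iterate_A hk h hx hv n
    obtain ⟨x2, y2, h2, _, _, v2, e2⟩ := iterate_A hk h hx hv m
    simp only at hnm
    rw [e1, e2] at hnm
    have : x1 = x2 := by injection hnm
    rw [this, v2] at v1
    have : (n : ℤ) = m := by linarith
    exact_mod_cast this
  · apply rank_pos_of_inj (WeierstrassCurve.Affine.Point.some x y (nonsing h hx))
    intro n m hnm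
    obtain ⟨x1, y1, h1, _, _, v1, e1⟩ := iterate_B hk h hx hv n
    obtain ⟨x2, y2, h2, _, _, v2, e2⟩ := iterate_B hk h hx hv m
    simp only at hnm
    rw [e1, e2] at hnm
    have : x1 = x2 := by injection hnm
    rw [this, v2] at v1
    have : (n : ℤ) = m := by linarith
    exact_mod_cast this

/-- Scaled version. -/
theorem rank_pos_of_scaled {K v T X Y : ℚ} (hv : v ≠ 0) (hT : T ≠ 0) (hK : K * v ^ 6 = T)
    (h : Y ^ 2 = X ^ 3 + T) (hg : Good T X) :
    0 < Module.rank ℤ (mordell K).toAffine.Point := by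
  have hK0 : K ≠ 0 := by
    rintro rfl
    apply hT
    rw [← hK]; ring
  obtain ⟨hX, hval⟩ := hg
  have hv2 : v ^ 2 ≠ 0 := pow_ne_zero 2 hv
  have hvalT : padicValRat 2 T = padicValRat 2 K + 6 * padicValRat 2 v := by
    rw [← hK, padicValRat.mul hK0 (pow_ne_zero 6 hv), padicValRat.pow]
    norm_num
  have hvalX : padicValRat 2 (X / v ^ 2) = padicValRat 2 X - 2 * padicValRat 2 v := by
    rw [padicValRat.div hX hv2, padicValRat.pow]
    norm_num
  refine rank_pos_of_val (k := K) (x := X / v ^ 2) (y := Y / v ^ 3) hK0 ?_ ⟨div_ne_zero hX hv2, ?_⟩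
  · rw [div_pow, div_pow, h, ← hK]
    field_simp
  · rw [hvalX]
    rcases hval with h1 | h1
    · left; linarith
    · right; linarith

/-- The special quartic. -/
def hP (s : ℤ) : ℤ :=
  8930250000 - 23987313000 * s - 102224998736 * s ^ 2 - 23987313000 * s ^ 3 + 8930250000 * s ^ 4

/-- denominator of the section for r = 3 -/
def dP (s : ℤ) : ℤ :=
  (6561 + s * (15525 + s * 6250))

/-- numerator of the abscissa for r = 3 -/
def nP (s : ℤ) : ℤ :=
  (4412961507515625 + s * (13145177191770000 + s * ((-44395995961811844) + s * ((-214205772360636000) + s * ((-296369523164531250) + s * ((-183708413437500000) + s * ((-38704633789062500) + s * (6868652343750000 + s * 2780914306640625))))))))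

/-- numerator of the ordinate for r = 3 -/
def mP (s : ℤ) : ℤ :=
  ((-293153584564451408203125) + s * ((-1309853645994645106875000) + s * (3448410651414638444400750 + s * (40676856900432607814973696 + s * (131093524095185575922576625 + s * (206180889996379549800375000 + s * (155870538484197098460937500 + s * (31801909693201400390625000 + s * ((-28273928253492645263671875) + s * ((-18450687672485351562500000) + s * ((-2726106270790100097656250) + s * (543321132659912109375000 + s * 146649777889251708984375))))))))))))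

/-- reversed `dP` (section for r = 5) -/
def dR (s : ℤ) : ℤ :=
  (6250 + s * (15525 + s * 6561))

/-- reversed `nP` -/
def nR (s : ℤ) : ℤ :=
  (2780914306640625 + s * (6868652343750000 + s * ((-38704633789062500) + s * ((-183708413437500000) + s * ((-296369523164531250) + s * ((-214205772360636000) + s * ((-44395995961811844) + s * (13145177191770000 + s * 4412961507515625))))))))

/-- reversed `mP` -/
def mR (s : ℤ) : ℤ :=
  (146649777889251708984375 + s * (543321132659912109375000 + s * ((-2726106270790100097656250) + s * ((-18450687672485351562500000) + s * ((-28273928253492645263671875) + s * (31801909693201400390625000 + s * (155870538484197098460937500 + s * (206180889996379549800375000 + s * (131093524095185575922576625 + s * (40676856900432607814973696 + s * (3448410651414638444400750 + s * ((-1309853645994645106875000) + s * (-293153584564451408203125)))))))))))))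

lemma key3 (s : ℤ) :
    (mP s) ^ 2 = (nP s) ^ 3 - 1000 * s ^ 3 * hP s * (147 * dP s) ^ 6 := by
  unfold mP nP hP dP
  ring

lemma key5 (s : ℤ) :
    (mR s) ^ 2 = (nR s) ^ 3 - 1000 * s ^ 5 * hP s * (147 * dR s) ^ 6 := by
  unfold mR nR hP dR
  ring

lemma val_odd {a : ℤ} (ha : Odd a) : (a : ℚ) ≠ 0 ∧ padicValRat 2 (a : ℚ) = 0 := by
  have h0 : a ≠ 0 := by
    rintro rfl
    exact absurd ha (by decide)
  refine ⟨by exact_mod_cast h0, ?_⟩
  rw [padicValRat.of_int]
  have : padicValInt 2 a = 0 := by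
    rw [padicValInt.eq_zero_iff]
    right; right
    intro hd
    have : (2 : ℤ) ∣ a := by exact_mod_cast hd
    exact (Int.not_even_iff_odd.mpr ha) (even_iff_two_dvd.mpr this)
  rw [this]; rfl

lemma val_two : padicValRat 2 (2 : ℚ) = 1 := by
  have := padicValRat.self (p := 2) (by norm_num)
  simpa using this

/-- `x = 2 ^ e * a / b` with `a, b` odd has valuation `e`. -/
lemma val_of {x : ℚ} {a b : ℤ} (e : ℤ) (ha : Odd a) (hb : Odd b)
    (h : x = (2 : ℚ) ^ e * a / b) : x ≠ 0 ∧ padicValRat 2 x = e := by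
  obtain ⟨ha0, hav⟩ := val_odd ha
  obtain ⟨hb0, hbv⟩ := val_odd hb
  have h2 : (2 : ℚ) ^ e ≠ 0 := zpow_ne_zero e (by norm_num)
  refine ⟨by rw [h]; exact div_ne_zero (mul_ne_zero h2 ha0) hb0, ?_⟩
  rw [h, padicValRat.div (mul_ne_zero h2 ha0) hb0, padicValRat.mul h2 ha0, hav, hbv,
    padicValRat.zpow, val_two]
  ring

/-- the twisting factor -/
def gam (r : ℕ) : ℤ := if Even r then 1 else -1000

/-- `γ_r s^r H(s)` -/
def twist (r : ℕ) (s : ℤ) : ℤ := gam r * s ^ r * hP s

lemma odd_add {a s c : ℤ} (ha : Odd a) (hs : Even s) : Odd (a + s * c) :=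
  ha.add_even (hs.mul_right c)

lemma hP_val {s : ℤ} (t : ℤ) (hs : s = 512 * t) :
    ∃ h : ℤ, Odd h ∧ hP s = 16 * h := by
  refine ⟨558140625 + 2 * (-383797008000 * t - 837427189645312 * t ^ 2 -
    100610082865152000 * t ^ 3 + 19177565847552000000 * t ^ 4), ?_, ?_⟩
  · exact odd_add (by decide) (by decide)
  · subst hs
    unfold hP
    ring

lemma hP_vals {s : ℤ} (hs : (512 : ℤ) ∣ s) :
    (hP s : ℚ) ≠ 0 ∧ padicValRat 2 (hP s : ℚ) = 4 := by
  obtain ⟨t, ht⟩ := hs
  obtain ⟨h, hh, he⟩ := hP_val t ht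
  refine val_of (a := h) (b := 1) 4 hh (by decide) ?_
  rw [he]
  push_cast
  norm_num

lemma thousand_val : padicValRat 2 (-1000 : ℚ) = 3 := by
  refine (val_of (a := -125) (b := 1) 3 (by decide) (by decide) ?_).2
  norm_num

lemma s_val {s : ℤ} (hs : (512 : ℤ) ∣ s) (hs0 : s ≠ 0) : 9 ≤ padicValRat 2 (s : ℚ) := by
  rw [padicValRat.of_int]
  have h : (2 : ℤ) ^ 9 ∣ s := by
    have : (2 : ℤ) ^ 9 = 512 := by norm_num
    rw [this]; exact hs
  have := (padicValInt_dvd_iff (p := 2) 9 s).mp (by exact_mod_cast h)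
  rcases this with h1 | h1
  · exact absurd h1 hs0
  · exact_mod_cast h1

lemma twist_even {s : ℤ} (hs : (512 : ℤ) ∣ s) (hs0 : s ≠ 0) {r : ℕ} (hr : Even r) :
    (twist r s : ℚ) ≠ 0 ∧ padicValRat 2 (twist r s : ℚ) = r * padicValRat 2 (s : ℚ) + 4 := by
  have hsq : (s : ℚ) ≠ 0 := by exact_mod_cast hs0
  obtain ⟨h1, h2⟩ := hP_vals hs
  have e : (twist r s : ℚ) = (s : ℚ) ^ r * (hP s : ℚ) := by
    unfold twist gam
    rw [if_pos hr]
    push_cast
    ring
  rw [e]
  refine ⟨mul_ne_zero (pow_ne_zero _ hsq) h1, ?_⟩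
  rw [padicValRat.mul (pow_ne_zero _ hsq) h1, padicValRat.pow, h2]

lemma twist_odd {s : ℤ} (hs : (512 : ℤ) ∣ s) (hs0 : s ≠ 0) {r : ℕ} (hr : ¬ Even r) :
    (twist r s : ℚ) ≠ 0 ∧ padicValRat 2 (twist r s : ℚ) = r * padicValRat 2 (s : ℚ) + 7 := by
  have hsq : (s : ℚ) ≠ 0 := by exact_mod_cast hs0
  obtain ⟨h1, h2⟩ := hP_vals hs
  have e : (twist r s : ℚ) = (-1000 : ℚ) * ((s : ℚ) ^ r * (hP s : ℚ)) := by
    unfold twist gam
    rw [if_neg hr]
    push_cast
    ring
  rw [e]
  have h3 : (s : ℚ) ^ r * (hP s : ℚ) ≠ 0 := mul_ne_zero (pow_ne_zero _ hsq) h1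
  refine ⟨mul_ne_zero (by norm_num) h3, ?_⟩
  rw [padicValRat.mul (by norm_num) h3, padicValRat.mul (pow_ne_zero _ hsq) h1,
    padicValRat.pow, h2, thousand_val]
  ring

/-- The six sections. -/
theorem sections {s : ℤ} (hs : (512 : ℤ) ∣ s) (hs0 : s ≠ 0) {r : ℕ} (hr : r < 6) :
    ∃ X Y : ℚ, Y ^ 2 = X ^ 3 + (twist r s : ℚ) ∧ Good (twist r s : ℚ) X := by
  have hsq : (s : ℚ) ≠ 0 := by exact_mod_cast hs0
  have hv := s_val hs hs0
  have hev : Even s := by
    obtain ⟨t, rfl⟩ := hs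
    exact ⟨256 * t, by ring⟩
  obtain ⟨t, ht⟩ := hs
  have hs : (512 : ℤ) ∣ s := ⟨t, ht⟩
  interval_cases r
  · -- r = 0
    obtain ⟨_, hT⟩ := twist_even hs hs0 (r := 0) (by decide)
    obtain ⟨hX, hXv⟩ := val_of (x := (23625 + 5040 * (s : ℚ)) / 4) (a := 23625 + s * 5040) (b := 1)
      (-2) (odd_add (by decide) hev) (by decide) (by push_cast; norm_num; ring)
    refine ⟨(23625 + 5040 * (s : ℚ)) / 4,
      (-3709125 - 930664 * (s : ℚ) + 756000 * (s : ℚ) ^ 2) / 8, ?_, hX, ?_⟩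
    · unfold twist gam hP
      rw [if_pos (by decide)]
      push_cast
      ring
    · left
      rw [hT, hXv]
      push_cast
      linarith
  · -- r = 1
    obtain ⟨_, hT⟩ := twist_odd hs hs0 (r := 1) (by decide)
    obtain ⟨hX, hXv⟩ := val_of (x := 22500 * ((s : ℚ) - 1) ^ 2 - 50960 * s)
      (a := 5625 + s * (5625 * s - 11250 - 12740)) (b := 1)
      2 (odd_add (by decide) hev) (by decide) (by push_cast; norm_num; ring)
    refine ⟨22500 * ((s : ℚ) - 1) ^ 2 - 50960 * s,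
      -3375000 + 22914000 * (s : ℚ) - 22914000 * (s : ℚ) ^ 2 + 3375000 * (s : ℚ) ^ 3, ?_, hX, ?_⟩
    · unfold twist gam hP
      rw [if_neg (by decide)]
      push_cast
      ring
    · left
      rw [hT, hXv]
      push_cast
      linarith
  · -- r = 2
    obtain ⟨_, hT⟩ := twist_even hs hs0 (r := 2) (by decide)
    obtain ⟨hZ, hZv⟩ := val_of (x := (5040 + 23625 * (s : ℚ)) / 4) (a := 315 + 2 * (378000 * t))
      (b := 1) 2 (odd_add (by decide) (by decide)) (by decide) (by rw [ht]; push_cast; norm_num; ring)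
    have hXv : padicValRat 2 ((s : ℚ) * ((5040 + 23625 * (s : ℚ)) / 4)) =
        padicValRat 2 (s : ℚ) + 2 := by
      rw [padicValRat.mul hsq hZ, hZv]
    refine ⟨(s : ℚ) * ((5040 + 23625 * (s : ℚ)) / 4),
      (s : ℚ) * (-3709125 * (s : ℚ) ^ 2 - 930664 * (s : ℚ) + 756000) / 8, ?_,
      mul_ne_zero hsq hZ, ?_⟩
    · unfold twist gam hP
      rw [if_pos (by decide)]
      push_cast
      ring
    · right
      rw [hT, hXv]
      push_cast
      linarith
  · -- r = 3
    obtain ⟨_, hT⟩ := twist_odd hs hs0 (r := 3) (by decide)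
    have hd : Odd (dP s) := odd_add (by decide) hev
    have hn : Odd (nP s) := odd_add (by decide) hev
    have hd' : Odd (147 * dP s) := by
      exact Odd.mul (by decide) hd
    have hd0 : ((147 * dP s : ℤ) : ℚ) ≠ 0 := (val_odd hd').1
    obtain ⟨hX, hXv⟩ := val_of (x := (nP s : ℚ) / ((147 * dP s : ℤ) : ℚ) ^ 2)
      (a := nP s) (b := (147 * dP s) ^ 2)
      0 hn (hd'.pow) (by push_cast; norm_num)
    refine ⟨(nP s : ℚ) / ((147 * dP s : ℤ) : ℚ) ^ 2,
      (mP s : ℚ) / ((147 * dP s : ℤ) : ℚ) ^ 3, ?_, hX, ?_⟩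
    · have key := congrArg (Int.cast : ℤ → ℚ) (key3 s)
      rw [div_pow, div_pow, div_eq_iff (pow_ne_zero _ (pow_ne_zero _ hd0))]
      have e : (twist 3 s : ℚ) = -1000 * (s : ℚ) ^ 3 * (hP s : ℚ) := by
        unfold twist gam
        rw [if_neg (by decide)]
        push_cast
        ring
      rw [e]
      rw [Int.cast_pow] at key
      rw [key]
      rw [add_mul, ← pow_mul, ← pow_mul, div_mul_cancel₀ _ (pow_ne_zero _ hd0)]
      push_cast
      ring
    · left
      rw [hT, hXv]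
      push_cast
      linarith
  · -- r = 4
    obtain ⟨_, hT⟩ := twist_even hs hs0 (r := 4) (by decide)
    have h5 : (5145 : ℚ) ≠ 0 ∧ padicValRat 2 (5145 : ℚ) = 0 := by
      have := val_odd (a := 5145) (by decide)
      simpa using this
    have hs2 : (s : ℚ) ^ 2 ≠ 0 := pow_ne_zero 2 hsq
    have hXv : padicValRat 2 (5145 * (s : ℚ) ^ 2) = 2 * padicValRat 2 (s : ℚ) := by
      rw [padicValRat.mul h5.1 hs2, h5.2, padicValRat.pow]
      push_cast; ring
    refine ⟨5145 * (s : ℚ) ^ 2,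
      (s : ℚ) ^ 2 * (94500 * (s : ℚ) ^ 2 - 126917 * s + 94500), ?_,
      mul_ne_zero h5.1 hs2, ?_⟩
    · unfold twist gam hP
      rw [if_pos (by decide)]
      push_cast
      ring
    · right
      rw [hT, hXv]
      push_cast
      linarith
  · -- r = 5
    obtain ⟨_, hT⟩ := twist_odd hs hs0 (r := 5) (by decide)
    have hn : Odd (nR s) := odd_add (by decide) hev
    obtain ⟨g, hg, hdg⟩ : ∃ g : ℤ, Odd g ∧ dR s = 2 * g := by
      refine ⟨3125 + 2 * (256 * t * (15525 + s * 6561) - 128 * t * (15525 + s * 6561)), ?_, ?_⟩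
      · exact odd_add (by decide) (by decide)
      · unfold dR
        rw [ht]; ring
    have hg' : Odd (147 * g) := Odd.mul (by decide) hg
    have hg0 : ((147 * g : ℤ) : ℚ) ≠ 0 := (val_odd hg').1
    have hd0 : ((147 * dR s : ℤ) : ℚ) ≠ 0 := by
      rw [hdg]
      intro h0
      apply hg0
      push_cast at h0 ⊢
      linarith
    obtain ⟨hX, hXv⟩ := val_of (x := (nR s : ℚ) / ((147 * dR s : ℤ) : ℚ) ^ 2)
      (a := nR s) (b := (147 * g) ^ 2)
      (-2) hn (hg'.pow) (by
        rw [hdg]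
        push_cast at hg0 ⊢
        have : (g : ℚ) ≠ 0 := (val_odd hg).1
        field_simp)
    refine ⟨(nR s : ℚ) / ((147 * dR s : ℤ) : ℚ) ^ 2,
      (mR s : ℚ) / ((147 * dR s : ℤ) : ℚ) ^ 3, ?_, hX, ?_⟩
    · have key := congrArg (Int.cast : ℤ → ℚ) (key5 s)
      rw [div_pow, div_pow, div_eq_iff (pow_ne_zero _ (pow_ne_zero _ hd0))]
      have e : (twist 5 s : ℚ) = -1000 * (s : ℚ) ^ 5 * (hP s : ℚ) := by
        unfold twist gam
        rw [if_neg (by decide)]
        push_cast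
        ring
      rw [e]
      rw [Int.cast_pow] at key
      rw [key]
      rw [add_mul, ← pow_mul, ← pow_mul, div_mul_cancel₀ _ (pow_ne_zero _ hd0)]
      push_cast
      ring
    · left
      rw [hT, hXv]
      push_cast
      linarith

/-- derivative of the quartic -/
def hD (s : ℤ) : ℤ :=
  -23987313000 - 204449997472 * s - 71961939000 * s ^ 2 + 35721000000 * s ^ 3

/-- Bezout coefficient -/
def bA (s : ℤ) : ℤ :=
  407050474486190481958451 + 190794204472398424221375 * s - 83481782354700121125000 * s ^ 2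

/-- Bezout coefficient -/
def bB (s : ℤ) : ℤ :=
  -13915007748310823633250 - 217418428435236615971413 * s - 61713441820628012500875 * s ^ 2 +
    20870445588675030281250 * s ^ 3

lemma bezout (s : ℤ) :
    bA s * hP s + bB s * hD s = 3968846146036459499288022000000000 := by
  unfold bA bB hP hD
  ring

lemma taylor (s d : ℤ) : ∃ k : ℤ, hP (s + d) = hP s + hD s * d + k * d ^ 2 := by
  refine ⟨-102224998736 - 23987313000 * (3 * s + d) +
    8930250000 * (6 * s ^ 2 + 4 * s * d + d ^ 2), ?_⟩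
  unfold hP hD
  ring

/-- the parameter -/
def sw (Q w : ℤ) : ℤ := -1000 * Q * w ^ 6

lemma taylor_w (Q w d : ℤ) :
    ∃ k : ℤ, hP (sw Q (w + d)) =
      hP (sw Q w) + hD (sw Q w) * (-6000 * Q * w ^ 5) * d + k * d ^ 2 := by
  set e : ℤ := -1000 * Q * (15 * w ^ 4 + 20 * w ^ 3 * d + 15 * w ^ 2 * d ^ 2 + 6 * w * d ^ 3 +
    d ^ 4) with he
  have h1 : sw Q (w + d) = sw Q w + ((-6000 * Q * w ^ 5) * d + e * d ^ 2) := by
    rw [he]; unfold sw; ring
  obtain ⟨k, hk⟩ := taylor (sw Q w) ((-6000 * Q * w ^ 5) * d + e * d ^ 2)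
  refine ⟨hD (sw Q w) * e + k * ((-6000 * Q * w ^ 5) + e * d) ^ 2, ?_⟩
  rw [h1, hk]
  ring

lemma hP_eq (s : ℤ) : hP s = 8930250000 +
    s * (-23987313000 + s * (-102224998736 - 23987313000 * s + 8930250000 * s ^ 2)) := by
  unfold hP
  ring

theorem exists_prime_once {Q : ℤ} (hQ : Q ≠ 0) (N : ℕ) :
    ∃ (w : ℤ) (p : ℕ), w ≠ 0 ∧ Even w ∧ p.Prime ∧ N < p ∧
      (p : ℤ) ∣ hP (sw Q w) ∧ ¬ (p : ℤ) ^ 2 ∣ hP (sw Q w) := by
  set C : ℤ := 8930250000 * 3968846146036459499288022000000000 * 6000 * Q with hC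
  have hC0 : C ≠ 0 := by
    rw [hC]
    exact mul_ne_zero (by norm_num) hQ
  set N' : ℕ := N + C.natAbs + 3 with hN'
  set L : ℤ := (N'.factorial : ℤ) with hL
  have hL6 : (6 : ℤ) ∣ L := by
    rw [hL]
    have : Nat.factorial 3 ∣ N'.factorial := Nat.factorial_dvd_factorial (by omega)
    have h6 : Nat.factorial 3 = 6 := by decide
    rw [h6] at this
    exact_mod_cast this
  set w₀ : ℤ := 8930250000 * L with hw₀
  set s₀ : ℤ := sw Q w₀ with hs₀
  set k : ℤ := -1000 * Q * 8930250000 ^ 5 * L ^ 5 with hk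
  have hL0 : L ≠ 0 := by
    rw [hL]
    exact_mod_cast Nat.factorial_ne_zero N'
  have hk0 : k ≠ 0 := by
    rw [hk]
    refine mul_ne_zero (mul_ne_zero (mul_ne_zero (by norm_num) hQ) (by norm_num)) (pow_ne_zero _ hL0)
  have hsk : s₀ = 8930250000 * (L * k) := by
    rw [hs₀, hk, hw₀]; unfold sw; ring
  set u : ℤ := -23987313000 + s₀ * (-102224998736 - 23987313000 * s₀ + 8930250000 * s₀ ^ 2) with hu
  have hval : hP s₀ = 8930250000 * (1 + L * (k * u)) := by
    rw [hP_eq, ← hu]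
    conv_lhs => rw [hsk]
    ring
  have hne1 : (1 + L * (k * u)).natAbs ≠ 1 := by
    intro h1
    rcases Int.natAbs_eq (1 + L * (k * u)) with h | h
    · rw [h1] at h
      have h2 : L * (k * u) = 0 := by push_cast at h; linarith
      have h3 : u = 0 := by
        rcases mul_eq_zero.mp h2 with h4 | h4
        · exact absurd h4 hL0
        · rcases mul_eq_zero.mp h4 with h5 | h5
          · exact absurd h5 hk0
          · exact h5
      have h4 : (8930250000 : ℤ) ∣ 23987313000 := by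
        have h5 : (8930250000 : ℤ) ∣ s₀ := ⟨_, hsk⟩
        have h6 : (23987313000 : ℤ) =
            s₀ * (-102224998736 - 23987313000 * s₀ + 8930250000 * s₀ ^ 2) := by
          rw [hu] at h3; linarith
        rw [h6]
        exact Dvd.dvd.mul_right h5 _
      revert h4
      decide
    · rw [h1] at h
      have h2 : L * (k * u) = -2 := by push_cast at h; linarith
      have h3 : (6 : ℤ) ∣ -2 := by
        rw [← h2]
        exact Dvd.dvd.mul_right hL6 _
      revert h3
      decide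
  obtain ⟨p, hp, hpd⟩ := Nat.exists_prime_and_dvd hne1
  have hpd' : (p : ℤ) ∣ 1 + L * (k * u) := by
    exact Int.natCast_dvd.mpr hpd
  have hpI : Prime (p : ℤ) := Nat.prime_iff_prime_int.mp hp
  have hpN' : N' < p := by
    by_contra hcon
    push Not at hcon
    have h1 : (p : ℤ) ∣ L := by
      rw [hL]
      exact_mod_cast (Nat.Prime.dvd_factorial hp).mpr hcon
    have h2 : (p : ℤ) ∣ 1 := by
      have h3 := dvd_sub hpd' (Dvd.dvd.mul_right h1 (k * u))
      simpa using h3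
    exact hpI.not_isUnit (isUnit_of_dvd_one h2)
  have hpC : ¬ (p : ℤ) ∣ C := by
    intro h
    have h1 : p ∣ C.natAbs := Int.natCast_dvd.mp h
    have h2 := Nat.le_of_dvd (Int.natAbs_pos.mpr hC0) h1
    omega
  have hp0 : ¬ (p : ℤ) ∣ 8930250000 := fun h => hpC (by
    rw [hC]
    exact Dvd.dvd.mul_right (Dvd.dvd.mul_right (Dvd.dvd.mul_right h _) _) _)
  have hpR : ¬ (p : ℤ) ∣ 3968846146036459499288022000000000 := fun h => hpC (by
    rw [hC]
    exact Dvd.dvd.mul_right (Dvd.dvd.mul_right (Dvd.dvd.mul_left h _) _) _)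
  have hpQ : ¬ (p : ℤ) ∣ 6000 * Q := fun h => hpC (by
    rw [hC, mul_assoc]
    exact Dvd.dvd.mul_left h _)
  have hp6000 : ¬ (p : ℤ) ∣ 6000 := fun h => hpQ (Dvd.dvd.mul_right h _)
  have hp2 : ¬ (p : ℤ) ∣ 2 := fun h => hp6000 (h.trans ⟨3000, by norm_num⟩)
  have hdvd0 : (p : ℤ) ∣ hP s₀ := by
    rw [hval]
    exact Dvd.dvd.mul_left hpd' _
  have hpw : ¬ (p : ℤ) ∣ w₀ := by
    intro h
    have h1 : (p : ℤ) ∣ s₀ := by
      rw [hs₀]
      unfold sw
      exact Dvd.dvd.mul_left (dvd_pow h (by norm_num)) _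
    apply hp0
    have h2 := dvd_sub hdvd0 (Dvd.dvd.mul_right h1
      (-23987313000 + s₀ * (-102224998736 - 23987313000 * s₀ + 8930250000 * s₀ ^ 2)))
    rw [hP_eq s₀] at h2
    simpa using h2
  have hpD : ¬ (p : ℤ) ∣ hD s₀ := by
    intro h
    apply hpR
    rw [← bezout s₀]
    exact dvd_add (Dvd.dvd.mul_left hdvd0 _) (Dvd.dvd.mul_left h _)
  have hw₀even : Even w₀ := by
    rw [hw₀]
    exact ⟨4465125000 * L, by ring⟩
  have hw₀0 : w₀ ≠ 0 := by
    intro h
    apply hpw
    rw [h]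
    exact dvd_zero _
  by_cases hsq : (p : ℤ) ^ 2 ∣ hP s₀
  · obtain ⟨c, hc⟩ := taylor_w Q w₀ (2 * p)
    rw [← hs₀] at hc
    refine ⟨w₀ + 2 * p, p, ?_, hw₀even.add ⟨p, by ring⟩, hp, by omega, ?_, ?_⟩
    · intro h0
      apply hpw
      have : w₀ = (p : ℤ) * (-2) := by linarith
      rw [this]
      exact dvd_mul_right _ _
    · rw [hc]
      refine dvd_add (dvd_add hdvd0 ?_) ?_
      · exact Dvd.dvd.mul_left (Dvd.intro_left _ rfl) _
      · refine Dvd.dvd.mul_left ?_ _
        exact dvd_pow (Dvd.intro_left _ rfl) (by norm_num)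
    · intro h
      rw [hc] at h
      have h1 : (p : ℤ) ^ 2 ∣ c * (2 * p) ^ 2 := ⟨4 * c, by ring⟩
      have h2 : (p : ℤ) ^ 2 ∣ hD s₀ * (-6000 * Q * w₀ ^ 5) * (2 * p) := by
        have h3 := dvd_sub (dvd_sub h h1) hsq
        have h4 : hP s₀ + hD s₀ * (-6000 * Q * w₀ ^ 5) * (2 * ↑p) + c * (2 * ↑p) ^ 2 -
            c * (2 * ↑p) ^ 2 - hP s₀ = hD s₀ * (-6000 * Q * w₀ ^ 5) * (2 * ↑p) := by ring
        rwa [h4] at h3
      have h5 : (p : ℤ) ∣ 2 * (hD s₀ * (-6000 * Q * w₀ ^ 5)) := by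
        have h6 : (p : ℤ) * (p : ℤ) ∣ (p : ℤ) * (2 * (hD s₀ * (-6000 * Q * w₀ ^ 5))) := by
          obtain ⟨e, he⟩ := h2
          exact ⟨e, by linear_combination he⟩
        exact (mul_dvd_mul_iff_left (by exact_mod_cast hp.ne_zero)).mp h6
      rcases hpI.dvd_or_dvd h5 with h6 | h6
      · exact hp2 h6
      rcases hpI.dvd_or_dvd h6 with h7 | h7
      · exact hpD h7
      rcases hpI.dvd_or_dvd h7 with h8 | h8
      · apply hpQ
        have := (dvd_neg (a := (p : ℤ)) (b := -6000 * Q)).mpr h8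
        simpa using this
      · exact hpw (hpI.dvd_of_dvd_pow h8)
  · exact ⟨w₀, p, hw₀0, hw₀even, hp, by omega, hdvd0, hsq⟩

/-- `a` is sixth power-free: `a ≠ 0` and `p⁶ ∤ a` for every prime `p`. -/
def SixthPowerFree (a : ℤ) : Prop :=
  a ≠ 0 ∧ ∀ p : ℕ, p.Prime → ¬ (p : ℤ) ^ 6 ∣ a

lemma exists_sixth (n : ℕ) : ∀ a : ℤ, a.natAbs = n → a ≠ 0 →
    ∃ b u : ℤ, SixthPowerFree b ∧ u ≠ 0 ∧ a = b * u ^ 6 := by
  induction n using Nat.strong_induction_on with
  | _ n ih =>
    intro a han ha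
    by_cases hf : ∀ p : ℕ, p.Prime → ¬ (p : ℤ) ^ 6 ∣ a
    · exact ⟨a, 1, ⟨ha, hf⟩, one_ne_zero, by ring⟩
    · push Not at hf
      obtain ⟨p, hp, m, hm⟩ := hf
      have hm0 : m ≠ 0 := by
        rintro rfl
        apply ha
        rw [hm]; ring
      have hlt : m.natAbs < n := by
        rw [← han, hm, Int.natAbs_mul, Int.natAbs_pow, Int.natAbs_natCast]
        have h1 : 1 < p ^ 6 := Nat.one_lt_pow (by norm_num) hp.one_lt
        have h2 : 0 < m.natAbs := Int.natAbs_pos.mpr hm0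
        nlinarith
      obtain ⟨b, u, hb, hu, he⟩ := ih _ hlt m rfl hm0
      refine ⟨b, p * u, hb, mul_ne_zero (by exact_mod_cast hp.ne_zero) hu, ?_⟩
      rw [hm, he]
      ring

/-- The curve `E'_i(a, Q) : y² = x³ + a Qⁱ` over `ℚ`. -/
def curve (a Q : ℤ) (i : ℕ) : WeierstrassCurve ℚ := ⟨0, 0, 0, 0, ((a * Q ^ i : ℤ) : ℚ)⟩

/-- `(a, Q)` is a proper pair: `a ≠ 0`, `Q` is neither a perfect square nor a perfect cube, and for
every `i ≥ 0` the group of rational points of `y² = x³ + a Qⁱ` has positive rank. -/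
def ProperPair (a Q : ℤ) : Prop :=
  a ≠ 0 ∧ ¬ IsSquare Q ∧ (∀ c : ℤ, c ^ 3 ≠ Q) ∧
    ∀ i : ℕ, 0 < Module.rank ℤ (curve a Q i).toAffine.Point

theorem all_twists {Q w b u : ℤ} (hQ : Q ≠ 0) (hw : w ≠ 0) (hwe : Even w) (hu : u ≠ 0)
    (hb : b ≠ 0) (h : hP (sw Q w) = b * u ^ 6) (i : ℕ) :
    0 < Module.rank ℤ (curve b Q i).toAffine.Point := by
  have hs0 : sw Q w ≠ 0 := by
    unfold sw
    exact mul_ne_zero (mul_ne_zero (by norm_num) hQ) (pow_ne_zero _ hw)
  have h512 : (512 : ℤ) ∣ sw Q w := by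
    obtain ⟨c, hc⟩ := hwe
    refine ⟨-125 * Q * c ^ 6, ?_⟩
    unfold sw
    rw [hc]
    ring
  obtain ⟨q, r, hr, hi⟩ : ∃ q r : ℕ, r < 6 ∧ i = 6 * q + r :=
    ⟨i / 6, i % 6, Nat.mod_lt _ (by norm_num), (Nat.div_add_mod i 6).symm⟩
  obtain ⟨X, Y, hXY, hg⟩ := sections h512 hs0 hr
  have hQq : (Q : ℚ) ≠ 0 := by exact_mod_cast hQ
  have huq : (u : ℚ) ≠ 0 := by exact_mod_cast hu
  have hwq : (w : ℚ) ≠ 0 := by exact_mod_cast hw
  have hbq : (b : ℚ) ≠ 0 := by exact_mod_cast hb
  have hT0 : (twist r (sw Q w) : ℚ) ≠ 0 := by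
    have h1 : hP (sw Q w) ≠ 0 := by
      rw [h]; exact mul_ne_zero hb (pow_ne_zero _ hu)
    have : twist r (sw Q w) ≠ 0 := by
      unfold twist gam
      refine mul_ne_zero (mul_ne_zero ?_ (pow_ne_zero _ hs0)) h1
      split_ifs <;> norm_num
    exact_mod_cast this
  obtain ⟨v, hv, hvK⟩ : ∃ v : ℚ, v ≠ 0 ∧
      ((b * Q ^ i : ℤ) : ℚ) * v ^ 6 = (twist r (sw Q w) : ℚ) := by
    refine ⟨(u : ℚ) * (w : ℚ) ^ r * 10 ^ ((r + 1) / 2) / (Q : ℚ) ^ q, ?_, ?_⟩
    · exact div_ne_zero (mul_ne_zero (mul_ne_zero huq (pow_ne_zero _ hwq))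
        (pow_ne_zero _ (by norm_num))) (pow_ne_zero _ hQq)
    · unfold twist gam
      rw [h, hi]
      unfold sw
      have hQ6 : (Q : ℚ) ^ q ≠ 0 := pow_ne_zero _ hQq
      rw [pow_add, pow_mul, div_pow]
      push_cast
      rw [← pow_mul (Q : ℚ) q 6, mul_comm q 6, pow_mul (Q : ℚ) 6 q]
      have hQ6' : ((Q : ℚ) ^ 6) ^ q ≠ 0 := pow_ne_zero _ (pow_ne_zero _ hQq)
      rw [mul_div_assoc', div_eq_iff hQ6']
      interval_cases r
      all_goals norm_num
      all_goals ring
  have := rank_pos_of_scaled hv hT0 hvK hXY hg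
  exact this

/-- **Main theorem** (positive answer to Q1). For every integer `Q` different from `-1, 0, 1`
that is neither a perfect square nor a perfect cube, there are infinitely many sixth power-free
integers `a` such that `(a, Q)` is a proper pair. -/
theorem result (Q : ℤ) (hQ : Q ∉ ({-1, 0, 1} : Set ℤ)) (hsq : ¬ IsSquare Q)
    (hcb : ∀ c : ℤ, c ^ 3 ≠ Q) :
    {a : ℤ | SixthPowerFree a ∧ ProperPair a Q}.Infinite := by
  have h0 : Q ≠ 0 := by
    rintro rfl
    exact hQ (by simp)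
  intro hfin
  obtain ⟨B, hB⟩ : ∃ B : ℕ, ∀ a ∈ {a : ℤ | SixthPowerFree a ∧ ProperPair a Q}, a.natAbs ≤ B := by
    obtain ⟨B, hB⟩ := (hfin.image Int.natAbs).bddAbove
    exact ⟨B, fun a ha => hB ⟨a, ha, rfl⟩⟩
  obtain ⟨w, p, hw, hwe, hp, hpB, hpd, hpsq⟩ := exists_prime_once h0 B
  have hne : hP (sw Q w) ≠ 0 := by
    intro h
    apply hpsq
    rw [h]
    exact dvd_zero _
  obtain ⟨b, u, hb, hu, he⟩ := exists_sixth _ (hP (sw Q w)) rfl hne
  have hmem : b ∈ {a : ℤ | SixthPowerFree a ∧ ProperPair a Q} :=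
    ⟨hb, hb.1, hsq, hcb, fun i => all_twists h0 hw hwe hu hb.1 he i⟩
  have hpI : Prime (p : ℤ) := Nat.prime_iff_prime_int.mp hp
  have hpb : (p : ℤ) ∣ b := by
    rw [he] at hpd
    rcases hpI.dvd_or_dvd hpd with h | h
    · exact h
    · exfalso
      apply hpsq
      have h1 : (p : ℤ) ∣ u := hpI.dvd_of_dvd_pow h
      rw [he]
      refine Dvd.dvd.mul_left ?_ _
      exact (pow_dvd_pow_of_dvd h1 2).trans (pow_dvd_pow _ (by norm_num))
  have h3 : p ∣ b.natAbs := Int.natCast_dvd.mp hpb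
  have h4 := Nat.le_of_dvd (Int.natAbs_pos.mpr hb.1) h3
  have h5 := hB b hmem
  omega

end Pool.Agent.Results.MP_cee892_nt.ProperPairs
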